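import Pool.Agent.H66.FA.All

/-!
Left-invariant Finsler metrics with negative Ricci scalar and vanishing S-curvature on the almost
abelian Lie groups `ℝ ⋉_A ℝᵐ`, all eigenvalues of `A` with positive real part, are Riemannian.
-/

set_option autoImplicit false

open Matrix

namespace Pool.Agent.Results.MP_f6facd_gt.AlmostAbelianGroups

open Pool.Agent.H63.Fins Pool.Agent.H66.FA

/-- Let `m ≥ 1` and let `A` be a real `m × m` matrix with `exp(-tA) → 0` for `t → ∞`. A Finsler
metric `F` on the group `ℝ ⋉_A ℝᵐ` which is left-invariant and has vanishing S-curvature is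
Riemannian, if its Ricci scalar is negative at those nonzero vectors `v`, tangent to `ℝᵐ` at the
identity, for which the derivative of `t ↦ F(exp(tA) v)` at `0` is zero. -/
theorem result (m : ℕ) (A : Matrix (Fin m) (Fin m) ℝ) (F : V (m + 1) → V (m + 1) → ℝ)
    (hm : 0 < m) (hA : Expanding A) (hF : IsFinsler Set.univ F) (hinv : IsLeftInvariant A F)
    (hRic : ∀ v : V (m + 1), v ≠ 0 → v 0 = 0 →
      deriv (fun t : ℝ => F 0 (Fin.cons 0 (NormedSpace.exp (t • A) *ᵥ Fin.tail v))) 0 = 0 →
      ricci F 0 v < 0)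
    (hS : ∀ x y, y ≠ 0 → HasSCurvature Set.univ F x y 0) :
    IsRiemannian Set.univ F :=
  x_FIN2 m A F hm hA hF hinv hRic hS

end Pool.Agent.Results.MP_f6facd_gt.AlmostAbelianGroups
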