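import Pool.Agent.H63.Fins.SCurv

/-!
A homogeneous, non-Riemannian Finsler metric with negative Ricci scalar and vanishing
S-curvature, on an open connected subset of `ℝ⁴` (it is `H² × H²` with
`F = (a² + a b + b²)^(1/4)`, `a`, `b` the squared hyperbolic norms of the two components).
-/

set_option autoImplicit false

namespace Pool.Agent.Results.MP_f6facd_gt.NegRicciZeroS

open Pool.Agent.H63.Fins

/-- There are a connected open set `U ⊆ ℝ⁴` and a Finsler metric `F` on `U` which is homogeneous
and not Riemannian, has negative Ricci scalar (the trace of the Riemann curvature, which is also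
`F²` times the sum of the flag curvatures over any orthonormal frame of the orthogonal complement),
and has vanishing S-curvature. -/
theorem result : ∃ (U : Set (V 4)) (F : V 4 → V 4 → ℝ),
    IsOpen U ∧ IsConnected U ∧ IsFinsler U F ∧ IsHomogeneous U F ∧ ¬ IsRiemannian U F ∧
    (∀ x ∈ U, 0 < sigmaBH F x) ∧
    (∀ x ∈ U, ∀ y, y ≠ 0 → ricci F x y < 0 ∧
      ∀ e : Fin 3 → V 4, IsFrame F x y e → F x y ^ 2 * ∑ i, flagK F x y (e i) = ricci F x y) ∧
    (∀ x ∈ U, ∀ y, y ≠ 0 → HasSCurvature U F x y 0) :=
  ⟨U, FF, U_open, U_connected, FF_finsler, FF_homogeneous, FF_not_riemannian, sigma_pos,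
    fun x hx y hy => ⟨ricci_neg x y ⟨hx, hy⟩, fun e he => ricci_frame x y ⟨hx, hy⟩ e he⟩,
    fun x hx y hy => S_zero x y ⟨hx, hy⟩⟩

end Pool.Agent.Results.MP_f6facd_gt.NegRicciZeroS
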